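import Pool.Agent.W79.PL.Defs

set_option autoImplicit false

namespace Pool.Agent.W924.PL

open Pool.Agent.W79.PL
open scoped Classical

theorem base {V : Type} (G : SimpleGraph V) (x a b : V) (l2 : List V) :
    cg G x (b :: a :: l2) ≤ cg G x (b :: l2) +
      2 * (if (G.Adj x a ↔ G.Adj x b) then 0 else 1) := by
  cases l2 with
  | nil =>
    simp only [cg]
    by_cases h1 : G.Adj x a <;> by_cases h2 : G.Adj x b <;> simp [h1, h2]
  | cons c t =>
    simp only [cg]
    by_cases h1 : G.Adj x a <;> by_cases h2 : G.Adj x b <;> by_cases h3 : G.Adj x c <;>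
      simp [h1, h2, h3] <;> omega

theorem main : S_INS := by
  intro V _ G x a b l1 l2
  have hs : (if x ∈ sep G a b then 1 else 0) =
      (if (G.Adj x a ↔ G.Adj x b) then 0 else 1) := by
    unfold sep
    simp only [Finset.mem_filter, Finset.mem_univ, true_and]
    split_ifs <;> simp_all
  rw [hs]
  have e : ∀ (u v : V) (l : List V), cg G x (u :: v :: l) =
      (if (G.Adj x u ↔ G.Adj x v) then 0 else 1) + cg G x (v :: l) := fun _ _ _ => rfl
  induction l1 with
  | nil => exact base G x a b l2
  | cons y t ih =>
    cases t with
    | nil =>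
      simp only [List.cons_append, List.nil_append] at ih ⊢
      rw [e y b (a :: l2), e y b l2]
      have := base G x a b l2
      omega
    | cons z t' =>
      simp only [List.cons_append] at ih ⊢
      rw [e y z (t' ++ b :: a :: l2), e y z (t' ++ b :: l2)]
      omega

end Pool.Agent.W924.PL
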